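import Pool.Agent.Helper98.SM.PS1
import Pool.Agent.Helper80.SM.PS2
import Pool.Agent.Helper4.SM.PI
import Pool.Agent.Helper50.SM.AvgMain
import Pool.Agent.Helper34.SM.Heavy

/-!
Every subset of a configuration without conflict extends with probability at most
`P(k)^(1 - |L|/k)`, up to rare exceptions.
-/

set_option autoImplicit false

open MeasureTheory Set

namespace Pool.Agent.Helper63.SM

variable {X : Type*} [MeasurableSpace X] {μ : Measure X} [IsProbabilityMeasure μ]
  {R : X → X → Prop} {k : ℕ}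

/-- the error terms: `N` -/
noncomputable def eN (p δ : ℝ) (k : ℕ) : ℝ := Real.sqrt (2 * (2 * δ + 3 * k * Real.log 2) / p)

/-- the error terms: `E` -/
noncomputable def eE (p δ η : ℝ) (k : ℕ) : ℝ :=
  δ + 2 * k * Real.log 2 + p / 2 * η * (k : ℝ) ^ 2 + p / 2 * k +
    (4 * p * eN p δ k + 1) * k

omit [IsProbabilityMeasure μ] in
lemma hv_nonneg {f : (Fin k → X) → ℝ} (hf : Dens μ f) (K : ℝ) (S : Finset (Fin k)) (i : Fin k) :
    0 ≤ hv μ K f S i :=
  setIntegral_nonneg_of_ae (Filter.Eventually.of_forall hf.nonneg)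

/-- the entropy of every subset -/
theorem entL (hR : MeasurableSet {p : X × X | R p.1 p.2}) {f : (Fin k → X) → ℝ} (hf : Dens μ f)
    (hs : ∀ x, f x ≠ 0 → x ∈ IndS R Finset.univ) (hk : 1 ≤ k) {p δ ε K : ℝ} (hp : 0 < p)
    (hε : 0 ≤ ε) (hspec : Spec μ R p ε) (hK : 1 ≤ K) (hKp : p * k ≤ Real.log K)
    (hεK : ε * K ≤ 1)
    (hP : ∀ j ≤ k, 0 < pr μ R j ∧ p / 2 * (j : ℝ) ^ 2 - δ ≤ -Real.log (pr μ R j))
    (hE : Ent μ Finset.univ f ≤ p / 2 * (k : ℝ) ^ 2 + δ + 2 * k * Real.log 2)
    (L : Finset (Fin k)) {M : ℕ} (hM : 1 ≤ M) :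
    Ent μ L f ≤ Ent μ Finset.univ f - p / 2 * (k * ((k : ℝ) - L.card)) +
      p / 2 * (((k : ℝ) - L.card) * (k / M + 1)) + M * (δ + eE p δ (ε * K) k) := by
  have hk0 : (0 : ℝ) < k := by exact_mod_cast hk
  have hl2 : 0 < Real.log 2 := Real.log_pos (by norm_num)
  have hpair : ∀ (S : Finset (Fin k)) (i j : Fin k), i ∉ S → j ∉ S → i ≠ j →
      Ent μ (insert i S) f + Ent μ (insert j S) f ≤
        Ent μ (insert i (insert j S)) f + Ent μ S f := by
    intro S i j hi hj hij
    have h := ps1 hR hf hs hi hj hij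
    linarith [h.1, h.2]
  refine avg_main (k := k) hk (fun S => Ent μ S f) (fun S i => hv μ K f S i) (p := p) (δ := δ)
    (η := ε * K) (N := eN p δ k) (E := eE p δ (ε * K) k) hp.le
    (mul_nonneg hε (by linarith)) hεK ?_ hpair ?_ ?_ ?_ ?_ ?_ ?_ L hM
  · intro S i
    exact hv_nonneg hf K S i
  · intro S
    have h1 := ps2 hR hf hp.le hε hspec (lt_of_lt_of_le one_pos hK) S
    refine h1.trans (Finset.sum_le_sum fun i hi => Finset.sum_le_sum fun j hj => ?_)
    have hi' : i ∉ S := Finset.mem_compl.1 hi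
    obtain ⟨hji, hj'⟩ := Finset.mem_erase.1 hj
    exact (ps1 hR hf hs hi' (Finset.mem_compl.1 hj') (Ne.symm hji)).2
  · intro e
    have h1 := Pool.Agent.Helper34.SM.heavy hR hf hs e hK hp.le hP
    set N0 := ∑ t : Fin k, hv μ K f (ch e t) (e t) with hN0
    have hN0n : 0 ≤ N0 := Finset.sum_nonneg fun t _ => hv_nonneg hf K _ _
    unfold eN
    apply Real.le_sqrt_of_sq_le
    rw [le_div_iff₀ hp]
    have h2 : p * k * N0 ≤ Real.log K * N0 := mul_le_mul_of_nonneg_right hKp hN0n
    have h3 : p / 2 * ((k : ℝ) - N0) ^ 2 = p / 2 * (k : ℝ) ^ 2 - p * k * N0 + p / 2 * N0 ^ 2 := by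
      ring
    rw [h3] at h1
    linarith
  · intro S
    have h1 := (ent_ge hR hf hs S).2
    have h2 := (hP S.card (by simpa using Finset.card_le_univ S)).2
    linarith
  · show Ent μ ∅ f = 0
    unfold Ent
    simp only [mg_empty hf, Real.log_one, mul_zero, integral_zero]
  · intro i
    have h1 := (ent_ge hR hf hs {i}).2
    have h2 : pr μ R ({i} : Finset (Fin k)).card ≤ 1 := by
      unfold pr; exact measureReal_le_one
    have h3 : Real.log (pr μ R ({i} : Finset (Fin k)).card) ≤ 0 :=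
      Real.log_nonpos (ent_ge hR hf hs {i}).1.le h2
    show 0 ≤ Ent μ {i} f
    linarith
  · unfold eE
    linarith

lemma measurable_IndS (hR : MeasurableSet {p : X × X | R p.1 p.2}) (S : Finset (Fin k)) :
    MeasurableSet (IndS R S : Set (Fin k → X)) := by
  have : (IndS R S : Set (Fin k → X)) = ⋂ i ∈ S, ⋂ j ∈ S, {x | i ≠ j → ¬ R (x i) (x j)} := by
    ext x; simp [IndS]
  rw [this]
  refine Finset.measurableSet_biInter _ fun i _ => Finset.measurableSet_biInter _ fun j _ => ?_
  by_cases hij : i = j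
  · simp [hij]
  · have e : {x : Fin k → X | i ≠ j → ¬ R (x i) (x j)} =
        (fun x : Fin k → X => (x i, x j)) ⁻¹' {p : X × X | R p.1 p.2}ᶜ := by
      ext x; simp [hij]
    rw [e]
    exact ((measurable_pi_apply i).prodMk (measurable_pi_apply j)) hR.compl

lemma measurable_ex (hR : MeasurableSet {p : X × X | R p.1 p.2}) (hprk : 0 < pr μ R k)
    (L : Finset (Fin k)) : Measurable (ex μ R L : (Fin k → X) → ℝ) := by
  have hIm := measurable_IndS (k := k) hR Finset.univ
  set f : (Fin k → X) → ℝ := fun x => (IndS R Finset.univ).indicator (fun _ => (1 : ℝ)) x *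
    (pr μ R k)⁻¹ with hf
  have hqi : 0 < (pr μ R k)⁻¹ := inv_pos.2 hprk
  have hD : Dens μ f := by
    refine ⟨(measurable_const.indicator hIm).mul_const _, fun x => ?_, ⟨(pr μ R k)⁻¹, fun x => ?_⟩,
      ?_⟩
    · exact mul_nonneg (indicator_nonneg (fun _ _ => zero_le_one) x) hqi.le
    · refine mul_le_of_le_one_left hqi.le ?_
      exact indicator_le_self' (fun _ _ => zero_le_one) x |>.trans le_rfl
    · rw [hf, integral_mul_const, integral_indicator hIm, setIntegral_const, smul_eq_mul, mul_one]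
      have e : (Measure.pi fun _ : Fin k => μ).real (IndS R Finset.univ) = pr μ R k := by
        unfold pr IndS
        congr 1
        ext x
        simp
      rw [e]
      exact mul_inv_cancel₀ hprk.ne'
  have h1 : (fun x => ex μ R L x) = fun x => mg μ L f x * pr μ R k := by
    funext x
    rw [hf, mg_mul L _ (fun _ => (pr μ R k)⁻¹) (fun _ _ _ => rfl), mul_assoc,
      inv_mul_cancel₀ hprk.ne', mul_one]
    rfl
  show Measurable fun x => ex μ R L x
  rw [h1]
  exact (mg_dens hD L).meas.mul_const _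

/-- **Extension probabilities.** Up to an exceptional set of measure `P(k) / 4^k`, every subset `L`
of a tuple without conflict extends to a tuple without conflict with probability less than `τ`,
about `P(k)^(1 - |L| / k)`. -/
theorem star (hR : MeasurableSet {p : X × X | R p.1 p.2}) (hk : 1 ≤ k) {p δ ε K : ℝ} (hp : 0 < p)
    (hδ : 0 ≤ δ) (hε : 0 ≤ ε) (hspec : Spec μ R p ε) (hK : 1 ≤ K) (hKp : p * k ≤ Real.log K)
    (hεK : ε * K ≤ 1)
    (hP : ∀ j ≤ k, 0 < pr μ R j ∧ p / 2 * (j : ℝ) ^ 2 - δ ≤ -Real.log (pr μ R j))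
    (hPk : -Real.log (pr μ R k) ≤ p / 2 * (k : ℝ) ^ 2 + δ)
    (L : Finset (Fin k)) {M : ℕ} (hM : 1 ≤ M) {τ : ℝ} (hτ0 : 0 < τ)
    (hτ : -(p / 2 * (k * ((k : ℝ) - L.card))) +
      p / 2 * (((k : ℝ) - L.card) * (k / M + 1)) + M * (δ + eE p δ (ε * K) k) < Real.log τ) :
    (Measure.pi fun _ : Fin k => μ).real
      {x | x ∈ IndS R Finset.univ ∧ τ ≤ ex μ R L x} ≤ pr μ R k / 4 ^ k := by
  set ν := Measure.pi fun _ : Fin k => μ with hν
  set B : Set (Fin k → X) := {x | x ∈ IndS R Finset.univ ∧ τ ≤ ex μ R L x} with hB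
  by_contra hcon
  push Not at hcon
  have hprk := (hP k le_rfl).1
  have h4 : (0 : ℝ) < pr μ R k / 4 ^ k := by positivity
  set q := ν.real B with hq
  have hq0 : 0 < q := h4.trans hcon
  have hq1 : q ≤ 1 := measureReal_le_one
  have hIm := measurable_IndS (k := k) hR Finset.univ
  have hexm : Measurable (ex μ R L) := measurable_ex hR hprk L
  have hexc : ∀ x x' : Fin k → X, (∀ i ∈ L, x i = x' i) → ex μ R L x = ex μ R L x' :=
    fun x x' h => mg_congr L _ h
  have hBm : MeasurableSet B := hIm.inter (measurableSet_le measurable_const hexm)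
  set f : (Fin k → X) → ℝ := fun x => B.indicator (fun _ => (1 : ℝ)) x * q⁻¹ with hf
  have hqi : 0 < q⁻¹ := inv_pos.2 hq0
  have hfB : ∀ x ∈ B, f x = q⁻¹ := fun x hx => by rw [hf]; simp only [indicator_of_mem hx, one_mul]
  have hfB' : ∀ x, x ∉ B → f x = 0 := fun x hx => by
    rw [hf]; simp only [indicator_of_notMem hx, zero_mul]
  have hint : ∫ x, f x ∂ν = 1 := by
    rw [hf, integral_mul_const, integral_indicator hBm, setIntegral_const, smul_eq_mul, mul_one]
    exact mul_inv_cancel₀ hq0.ne'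
  have hD : Dens μ f := by
    refine ⟨(measurable_const.indicator hBm).mul_const _, fun x => ?_, ⟨q⁻¹, fun x => ?_⟩, hint⟩
    · by_cases hx : x ∈ B
      · rw [hfB x hx]; exact hqi.le
      · rw [hfB' x hx]
    · by_cases hx : x ∈ B
      · rw [hfB x hx]
      · rw [hfB' x hx]; exact hqi.le
  have hs : ∀ x, f x ≠ 0 → x ∈ IndS R Finset.univ := by
    intro x hx
    by_cases hxB : x ∈ B
    · exact hxB.1
    · exact absurd (hfB' x hxB) hx
  -- the entropy of `f`
  have hE1 : Ent μ Finset.univ f = -Real.log q := by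
    rw [(ent_int hD Finset.univ).2]
    have e : (fun x => f x * Real.log (mg μ Finset.univ f x)) = fun x => f x * -Real.log q := by
      funext x
      rw [mg_univ]
      by_cases hx : x ∈ B
      · rw [hfB x hx, Real.log_inv]
      · rw [hfB' x hx]; ring
    rw [e, integral_mul_const]
    change (∫ x, f x ∂ν) * -Real.log q = _
    rw [hint, one_mul]
  -- the entropy of the marginal
  have hmgL : ∀ x ∈ B, mg μ L f x = ex μ R L x * q⁻¹ := by
    intro x hx
    have e1 : f = fun y => (IndS R Finset.univ).indicator (fun _ => (1 : ℝ)) y *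
        ({y | τ ≤ ex μ R L y}.indicator (fun _ => q⁻¹) y) := by
      funext y
      by_cases h1 : y ∈ IndS R Finset.univ
      · by_cases h2 : τ ≤ ex μ R L y
        · rw [hfB y ⟨h1, h2⟩, indicator_of_mem h1, indicator_of_mem (by exact h2), one_mul]
        · have h3 : y ∉ {y | τ ≤ ex μ R L y} := h2
          rw [hfB' y (fun h => h2 h.2), indicator_of_notMem h3, mul_zero]
      · rw [hfB' y (fun h => h1 h.1), indicator_of_notMem h1, zero_mul]
    rw [e1, mg_mul]
    · rw [indicator_of_mem (by exact hx.2)]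
      rfl
    · intro y y' h
      have h3 := hexc y y' h
      have h4 : y ∈ {y | τ ≤ ex μ R L y} ↔ y' ∈ {y | τ ≤ ex μ R L y} := by
        show τ ≤ ex μ R L y ↔ τ ≤ ex μ R L y'
        rw [h3]
      by_cases h2 : y ∈ {y | τ ≤ ex μ R L y}
      · rw [indicator_of_mem h2, indicator_of_mem (h4.1 h2)]
      · rw [indicator_of_notMem h2, indicator_of_notMem (fun h => h2 (h4.2 h))]
  have hE2 : Real.log τ - Real.log q ≤ Ent μ L f := by
    obtain ⟨hi, he⟩ := ent_int hD L
    rw [he]
    have h1 : Real.log τ - Real.log q = ∫ x, f x * (Real.log τ - Real.log q) ∂ν := by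
      rw [integral_mul_const, hint, one_mul]
    rw [h1]
    have hfi : Integrable f ν := by
      by_contra hni
      rw [integral_undef hni] at hint
      exact zero_ne_one hint
    refine integral_mono (hfi.mul_const _) hi fun x => ?_
    show f x * (Real.log τ - Real.log q) ≤ f x * Real.log (mg μ L f x)
    by_cases hx : x ∈ B
    · rw [hmgL x hx, Real.log_mul (hτ0.trans_le hx.2).ne' hqi.ne', Real.log_inv]
      apply mul_le_mul_of_nonneg_left _ (hD.nonneg x)
      have := Real.log_le_log hτ0 hx.2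
      linarith
    · rw [hfB' x hx]; simp
  have hlq : -Real.log q ≤ p / 2 * (k : ℝ) ^ 2 + δ + 2 * k * Real.log 2 := by
    have h1 := Real.log_le_log h4 hcon.le
    rw [Real.log_div hprk.ne' (by positivity), Real.log_pow] at h1
    have h2 : Real.log 4 = 2 * Real.log 2 := by
      rw [show (4 : ℝ) = 2 ^ 2 by norm_num, Real.log_pow]; push_cast; ring
    rw [h2] at h1
    linarith
  have hfin := entL hR hD hs hk hp hε hspec hK hKp hεK hP (by rw [hE1]; exact hlq) L hM
  rw [hE1] at hfin
  linarith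

end Pool.Agent.Helper63.SM
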