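import Pool.Agent.Helper38.SM.Trans2
import Pool.Agent.Helper94.SM.Trans1
import Pool.Agent.Helper6.SM.Conc

/-!
Large partial transversals exist with a probability which is not too small.
-/

set_option autoImplicit false

open MeasureTheory Set

namespace Pool.Agent.Helper63.SM

variable {X : Type*} [MeasurableSpace X] {μ : Measure X} [IsProbabilityMeasure μ]
  {R : X → X → Prop} {k : ℕ}

/-- existence of large partial transversals -/
theorem trans (hR : MeasurableSet {p : X × X | R p.1 p.2}) {r : ℕ} (hr : 1 ≤ r) {Λ : ℝ}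
    (hΛ : 0 < Λ) (hpr : 0 < pr μ R k) {v : ℕ} (hv : 1 ≤ v)
    (hstar : ∀ S : Finset (Fin k), v ≤ S.card → (Measure.pi fun _ : Fin k => μ).real
      {x | x ∈ IndS R Finset.univ ∧ pr μ R k * Λ ^ S.card ≤ ex μ R S x} ≤
        pr μ R k / 4 ^ k) (hk : 1 ≤ k) :
    1 / (2 * ((Finset.univ : Finset (Finset (Fin k))).filter fun V => V.card < v).card *
        (1 + Λ / r) ^ k) ≤
      (Measure.pi fun _ : Fin k => Measure.pi fun _ : Fin r => μ).real
        {ω | ∃ (T : Finset (Fin k)) (c : Fin k → Fin r), k < T.card + v ∧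
          ∀ i ∈ T, ∀ j ∈ T, i ≠ j → ¬ R (ω i (c i)) (ω j (c j))} :=
  trans_of hR (fun _ hr V u _ hG hGI _ _ hL hGe hg hg0 =>
    second_moment hR hr V u hG hGI hL hGe hg hg0) hr hΛ hpr hv hstar hk

end Pool.Agent.Helper63.SM
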