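import Mathlib

/-!
Second moment for random kissing configurations: definitions.

`X` is a probability space, `R` the conflict relation; a configuration is a tuple `Fin k → X`.
-/

set_option autoImplicit false

open MeasureTheory Set

namespace Pool.Agent.Helper63.SM

variable {X : Type*} [MeasurableSpace X]

/-- the tuples whose coordinates in `S` have no conflict -/
def IndS (R : X → X → Prop) {k : ℕ} (S : Finset (Fin k)) : Set (Fin k → X) :=
  {x | ∀ i ∈ S, ∀ j ∈ S, i ≠ j → ¬ R (x i) (x j)}

/-- the probability that `j` independent random points have no conflict -/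
noncomputable def pr (μ : Measure X) (R : X → X → Prop) (j : ℕ) : ℝ :=
  (Measure.pi fun _ : Fin j => μ).real {x | ∀ a b, a ≠ b → ¬ R (x a) (x b)}

/-- the marginal of `f` on the coordinates in `S` -/
noncomputable def mg (μ : Measure X) {k : ℕ} (S : Finset (Fin k)) (f : (Fin k → X) → ℝ)
    (x : Fin k → X) : ℝ := ∫ y, f (S.piecewise x y) ∂(Measure.pi fun _ : Fin k => μ)

/-- the relative entropy of the marginal of `f` on the coordinates in `S` -/
noncomputable def Ent (μ : Measure X) {k : ℕ} (S : Finset (Fin k)) (f : (Fin k → X) → ℝ) : ℝ :=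
  ∫ x, mg μ S f x * Real.log (mg μ S f x) ∂(Measure.pi fun _ : Fin k => μ)

/-- bounded probability densities -/
structure Dens (μ : Measure X) {k : ℕ} (f : (Fin k → X) → ℝ) : Prop where
  meas : Measurable f
  nonneg : ∀ x, 0 ≤ f x
  bdd : ∃ C : ℝ, ∀ x, f x ≤ C
  int : ∫ x, f x ∂(Measure.pi fun _ : Fin k => μ) = 1

/-- under `f`, the probability that, given the coordinates in `S`, the conditional density of the
coordinate `i` is larger than `K` -/
noncomputable def hv (μ : Measure X) {k : ℕ} (K : ℝ) (f : (Fin k → X) → ℝ) (S : Finset (Fin k))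
    (i : Fin k) : ℝ :=
  ∫ x in {x | K * mg μ S f x < mg μ (insert i S) f x}, f x ∂(Measure.pi fun _ : Fin k => μ)

/-- given the coordinates in `S`, the probability of a conflict if the coordinates `i` and `j` are
drawn independently from their conditional laws; averaged over the coordinates in `S` -/
noncomputable def cf (μ : Measure X) (R : X → X → Prop) {k : ℕ} (f : (Fin k → X) → ℝ)
    (S : Finset (Fin k)) (i j : Fin k) : ℝ :=
  ∫ x, (∫ z, mg μ (insert i S) f (Function.update x i z) *
    ∫ w in {w | R z w}, mg μ (insert j S) f (Function.update x j w) ∂μ ∂μ) / mg μ S f x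
    ∂(Measure.pi fun _ : Fin k => μ)

/-- the spectral inequality -/
def Spec (μ : Measure X) (R : X → X → Prop) (p ε : ℝ) : Prop :=
  ∀ φ : X → ℝ, Measurable φ → (∀ z, 0 ≤ φ z) → (∃ C : ℝ, ∀ z, φ z ≤ C) →
    p * ((∫ z, φ z ∂μ) ^ 2 - ε * ∫ z, φ z ^ 2 ∂μ) ≤
      ∫ z, φ z * ∫ w in {w | R z w}, φ w ∂μ ∂μ

/-- the first `t` indices in the order `e` -/
def ch {k : ℕ} (e : Equiv.Perm (Fin k)) (t : ℕ) : Finset (Fin k) :=
  Finset.univ.filter fun i => ((e.symm i : Fin k) : ℕ) < t

/-- the average over the orders -/
noncomputable def avg {k : ℕ} (g : Equiv.Perm (Fin k) → ℝ) : ℝ :=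
  (∑ e : Equiv.Perm (Fin k), g e) / (k.factorial : ℝ)

/-- the probability that the coordinates in `S` of `x` extend to a tuple without conflict -/
noncomputable def ex (μ : Measure X) (R : X → X → Prop) {k : ℕ} (S : Finset (Fin k))
    (x : Fin k → X) : ℝ := mg μ S ((IndS R Finset.univ).indicator fun _ => (1 : ℝ)) x

end Pool.Agent.Helper63.SM
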