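import Pool.Agent.Helper63.SM.Nums
import Pool.Agent.Helper63.SM.Star

/-!
The error terms of `star` are small.
-/

set_option autoImplicit false

open MeasureTheory Set Filter Topology

namespace Pool.Agent.Helper63.SM

open Pool.Agent.Helper63.RKS Pool.Agent.Helper49.EJ Pool.Agent.Helper47.KP

lemma sqrt_add_le' {a b : ℝ} (ha : 0 ≤ a) (hb : 0 ≤ b) :
    Real.sqrt (a + b) ≤ Real.sqrt a + Real.sqrt b := by
  have h1 := Real.sqrt_nonneg a
  have h2 := Real.sqrt_nonneg b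
  rw [Real.sqrt_le_left (by positivity)]
  have e : (Real.sqrt a + Real.sqrt b) ^ 2 =
      Real.sqrt a ^ 2 + Real.sqrt b ^ 2 + 2 * (Real.sqrt a * Real.sqrt b) := by ring
  rw [e, Real.sq_sqrt ha, Real.sq_sqrt hb]
  have := mul_nonneg h1 h2
  linarith

/-- the algebra: everything is at most `κ d k` -/
lemma err_alg {p k d C κ η ε₃ M : ℝ} (hp : 0 < p) (hp1 : p ≤ 1) (hk : 0 < k) (hd : 0 < d)
    (hC : 1 ≤ C) (hpk : p * k ≤ C * d) (hκ : 0 < κ) (hM1 : 1 ≤ M) (hM : 8 * C ≤ κ * M)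
    (hη : 0 ≤ η) (hη1 : η * d ≤ 1)
    (hε : 0 < ε₃) (h1 : M * ε₃ ≤ κ / 16) (h2 : M * Real.sqrt (4 * C * ε₃) ≤ κ / 64)
    (h3 : M * (C + 2 + Real.sqrt (6 * C * d)) ≤ κ / 64 * d) :
    ε₃ * (d * k) + p / 2 * (k * (k / M + 1)) + M * (ε₃ * (d * k) +
      (ε₃ * (d * k) + 2 * k * Real.log 2 + p / 2 * η * k ^ 2 + p / 2 * k +
        (4 * p * Real.sqrt (2 * (2 * (ε₃ * (d * k)) + 3 * k * Real.log 2) / p) + 1) * k)) ≤
      κ * (d * k) := by
  have hl2 : 0 < Real.log 2 := Real.log_pos (by norm_num)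
  have hl21 : Real.log 2 ≤ 1 := by have := Real.log_two_lt_d9; linarith
  have hdk : 0 < d * k := mul_pos hd hk
  have hM0 : 0 < M := by linarith
  set Y := Real.sqrt (6 * C * d) with hY
  have hY0 : 0 ≤ Y := Real.sqrt_nonneg _
  set W := Real.sqrt (4 * C * ε₃) with hW
  have hW0 : 0 ≤ W := Real.sqrt_nonneg _
  have hC0 : 0 < C := by linarith
  -- the square root
  have hs : p * Real.sqrt (2 * (2 * (ε₃ * (d * k)) + 3 * k * Real.log 2) / p) ≤ d * W + Y := by
    have e1 : p * Real.sqrt (2 * (2 * (ε₃ * (d * k)) + 3 * k * Real.log 2) / p) =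
        Real.sqrt (4 * ε₃ * d * (p * k) + 6 * Real.log 2 * (p * k)) := by
      have : 4 * ε₃ * d * (p * k) + 6 * Real.log 2 * (p * k) =
          p ^ 2 * (2 * (2 * (ε₃ * (d * k)) + 3 * k * Real.log 2) / p) := by
        field_simp; ring
      rw [this, Real.sqrt_mul (sq_nonneg p), Real.sqrt_sq hp.le]
    rw [e1]
    have e2 : d * W + Y = Real.sqrt (d ^ 2 * (4 * C * ε₃)) + Y := by
      rw [Real.sqrt_mul (sq_nonneg d), Real.sqrt_sq hd.le]
    rw [e2]
    have hb1 : 4 * ε₃ * d * (p * k) ≤ d ^ 2 * (4 * C * ε₃) := by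
      calc 4 * ε₃ * d * (p * k) ≤ 4 * ε₃ * d * (C * d) :=
            mul_le_mul_of_nonneg_left hpk (by positivity)
        _ = _ := by ring
    have hb2 : 6 * Real.log 2 * (p * k) ≤ 6 * C * d := by
      calc 6 * Real.log 2 * (p * k) ≤ 6 * 1 * (C * d) :=
            mul_le_mul (by linarith) hpk (by positivity) (by norm_num)
        _ = _ := by ring
    calc Real.sqrt (4 * ε₃ * d * (p * k) + 6 * Real.log 2 * (p * k)) ≤
          Real.sqrt (d ^ 2 * (4 * C * ε₃) + 6 * C * d) := Real.sqrt_le_sqrt (add_le_add hb1 hb2)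
      _ ≤ _ := sqrt_add_le' (by positivity) (by positivity)
  set s := Real.sqrt (2 * (2 * (ε₃ * (d * k)) + 3 * k * Real.log 2) / p) with hs'
  -- the terms
  have t1 : ε₃ * (d * k) ≤ κ / 16 * (d * k) := by
    apply mul_le_mul_of_nonneg_right _ hdk.le
    exact (le_mul_of_one_le_left hε.le hM1).trans h1
  have t2 : p / 2 * (k * (k / M + 1)) ≤ κ / 16 * (d * k) + k / 2 := by
    have a1 : p / 2 * (k * (k / M)) ≤ κ / 16 * (d * k) := by
      have : p / 2 * (k * (k / M)) = (p * k) * k / (2 * M) := by field_simp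
      rw [this, div_le_iff₀ (by positivity)]
      calc p * k * k ≤ C * d * k := mul_le_mul_of_nonneg_right hpk hk.le
        _ = (8 * C) * (d * k) / 8 := by ring
        _ ≤ (κ * M) * (d * k) / 8 := by
            apply div_le_div_of_nonneg_right _ (by norm_num)
            exact mul_le_mul_of_nonneg_right hM hdk.le
        _ = _ := by ring
    have a2 : p / 2 * k ≤ k / 2 := by
      have := mul_le_mul_of_nonneg_right hp1 hk.le
      linarith
    calc p / 2 * (k * (k / M + 1)) = p / 2 * (k * (k / M)) + p / 2 * k := by ring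
      _ ≤ _ := add_le_add a1 a2
  have t3 : M * (ε₃ * (d * k)) ≤ κ / 16 * (d * k) := by
    rw [← mul_assoc]
    exact mul_le_mul_of_nonneg_right h1 hdk.le
  have t4 : M * (2 * k * Real.log 2) ≤ M * (2 * k) := by
    apply mul_le_mul_of_nonneg_left _ hM0.le
    exact mul_le_of_le_one_right (by positivity) hl21
  have t5 : M * (p / 2 * η * k ^ 2) ≤ M * (C * k / 2) := by
    apply mul_le_mul_of_nonneg_left _ hM0.le
    calc p / 2 * η * k ^ 2 = (p * k) * (η * k / 2) := by ring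
      _ ≤ (C * d) * (η * k / 2) := mul_le_mul_of_nonneg_right hpk (by positivity)
      _ = (η * d) * (C * k / 2) := by ring
      _ ≤ 1 * (C * k / 2) := mul_le_mul_of_nonneg_right hη1 (by positivity)
      _ = _ := one_mul _
  have t6 : M * (p / 2 * k) ≤ M * (k / 2) := by
    apply mul_le_mul_of_nonneg_left _ hM0.le
    have := mul_le_mul_of_nonneg_right hp1 hk.le
    linarith
  have t7 : M * ((4 * p * s + 1) * k) ≤ κ / 16 * (d * k) + M * (4 * Y + 1) * k := by
    have a1 : 4 * p * s + 1 ≤ 4 * (d * W) + (4 * Y + 1) := by linarith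
    have a2 : M * (4 * (d * W)) ≤ κ / 16 * d := by
      have : M * (4 * (d * W)) = 4 * (M * W) * d := by ring
      rw [this]
      apply mul_le_mul_of_nonneg_right _ hd.le
      linarith
    calc M * ((4 * p * s + 1) * k) ≤ M * ((4 * (d * W) + (4 * Y + 1)) * k) := by
          apply mul_le_mul_of_nonneg_left _ hM0.le
          exact mul_le_mul_of_nonneg_right a1 hk.le
      _ = M * (4 * (d * W)) * k + M * (4 * Y + 1) * k := by ring
      _ ≤ κ / 16 * d * k + M * (4 * Y + 1) * k := by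
          have := mul_le_mul_of_nonneg_right a2 hk.le
          linarith
      _ = _ := by ring
  -- the terms of order `k`
  have t8 : k / 2 + M * (2 * k) + M * (C * k / 2) + M * (k / 2) + M * (4 * Y + 1) * k ≤
      κ / 16 * (d * k) := by
    have a1 : k / 2 ≤ M * (k / 2) := le_mul_of_one_le_left (by positivity) hM1
    have a2 : 4 * (M * (C + 2 + Y)) * k ≤ 4 * (κ / 64 * d) * k := by
      apply mul_le_mul_of_nonneg_right _ hk.le
      linarith
    have a3 : 0 ≤ M * C * k := by positivity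
    have a4 : 0 ≤ M * k := by positivity
    have e3 : 4 * (M * (C + 2 + Y)) * k = 4 * (M * C * k) + 8 * (M * k) + 4 * (M * Y * k) := by ring
    have e4 : M * (4 * Y + 1) * k = 4 * (M * Y * k) + M * k := by ring
    have e5 : M * (C * k / 2) = (M * C * k) / 2 := by ring
    have e6 : M * (2 * k) = 2 * (M * k) := by ring
    have e7 : M * (k / 2) = (M * k) / 2 := by ring
    have e8 : 4 * (κ / 64 * d) * k = κ / 16 * (d * k) := by ring
    rw [e3, e8] at a2
    rw [e4, e5, e6, e7]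
    rw [e7] at a1
    linarith
  have hexp : ε₃ * (d * k) + p / 2 * (k * (k / M + 1)) + M * (ε₃ * (d * k) +
      (ε₃ * (d * k) + 2 * k * Real.log 2 + p / 2 * η * k ^ 2 + p / 2 * k +
        (4 * p * s + 1) * k)) =
      ε₃ * (d * k) + p / 2 * (k * (k / M + 1)) + M * (ε₃ * (d * k)) + M * (ε₃ * (d * k)) +
        M * (2 * k * Real.log 2) + M * (p / 2 * η * k ^ 2) + M * (p / 2 * k) +
        M * ((4 * p * s + 1) * k) := by ring
  rw [hexp]
  have := mul_pos hκ hdk
  linarith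

/-- **The error terms of `star`.** -/
theorem err (hcap : CapAsymp) {c : ℝ} (hc0 : 0 < c) (hc : c < gst) {κ : ℝ} (hκ : 0 < κ) :
    ∃ M : ℕ, 1 ≤ M ∧ ∃ ε₃ : ℝ, 0 < ε₃ ∧ ∀ᶠ d : ℕ in atTop, ∀ η : ℝ, 0 ≤ η → η * d ≤ 1 →
      ε₃ * (d * (⌊AA * c * ord d⌋₊ : ℝ)) +
        pc d / 2 * ((⌊AA * c * ord d⌋₊ : ℝ) * ((⌊AA * c * ord d⌋₊ : ℝ) / M + 1)) +
        M * (ε₃ * (d * (⌊AA * c * ord d⌋₊ : ℝ)) +
          eE (pc d) (ε₃ * (d * (⌊AA * c * ord d⌋₊ : ℝ))) η ⌊AA * c * ord d⌋₊) ≤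
        κ * (d * (⌊AA * c * ord d⌋₊ : ℝ)) := by
  have hl2 : 0 < Real.log 2 := Real.log_pos (by norm_num)
  set C : ℝ := 1 + (c * Real.log 2 + 1) with hC
  have hC1 : 1 ≤ C := by rw [hC]; have : 0 < c * Real.log 2 := by positivity
                         linarith
  have hC0 : 0 < C := by linarith
  obtain ⟨M, hM⟩ := exists_nat_ge (max 1 (8 * C / κ))
  have hM1 : (1 : ℝ) ≤ M := (le_max_left _ _).trans hM
  have hM8 : 8 * C ≤ κ * M := by
    have := (le_max_right _ _).trans hM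
    rw [div_le_iff₀ hκ] at this
    linarith
  have hM0 : (0 : ℝ) < M := by linarith
  set ε₃ : ℝ := min (κ / (16 * M)) ((κ / (64 * M)) ^ 2 / (4 * C)) with hε3
  have hε30 : 0 < ε₃ := by rw [hε3]; positivity
  refine ⟨M, by exact_mod_cast hM1, ε₃, hε30, ?_⟩
  have h1 : M * ε₃ ≤ κ / 16 := by
    have : ε₃ ≤ κ / (16 * M) := min_le_left _ _
    calc M * ε₃ ≤ M * (κ / (16 * M)) := mul_le_mul_of_nonneg_left this hM0.le
      _ = κ / 16 := by field_simp
  have h2 : M * Real.sqrt (4 * C * ε₃) ≤ κ / 64 := by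
    have h3 : ε₃ ≤ (κ / (64 * M)) ^ 2 / (4 * C) := min_le_right _ _
    have h4 : 4 * C * ε₃ ≤ (κ / (64 * M)) ^ 2 := by
      rw [le_div_iff₀ (by positivity)] at h3
      linarith
    have h5 : Real.sqrt (4 * C * ε₃) ≤ κ / (64 * M) := by
      rw [← Real.sqrt_sq (show 0 ≤ κ / (64 * M) by positivity)]
      exact Real.sqrt_le_sqrt h4
    calc M * Real.sqrt (4 * C * ε₃) ≤ M * (κ / (64 * M)) := mul_le_mul_of_nonneg_left h5 hM0.le
      _ = κ / 64 := by field_simp
  -- `M (C + 2 + √(6 C d)) ≤ κ / 64 d`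
  have h3 : ∀ᶠ d : ℕ in atTop, M * (C + 2 + Real.sqrt (6 * C * d)) ≤ κ / 64 * d := by
    have ha : ∀ᶠ d : ℕ in atTop, M * (C + 2) ≤ κ / 128 * d := by
      have := (tendsto_natCast_atTop_atTop (R := ℝ)).eventually_ge_atTop
        (M * (C + 2) / (κ / 128))
      filter_upwards [this] with d hd
      rw [div_le_iff₀ (by positivity)] at hd
      linarith
    have hb : ∀ᶠ d : ℕ in atTop, M ^ 2 * (6 * C) ≤ (κ / 128) ^ 2 * d := by
      have := (tendsto_natCast_atTop_atTop (R := ℝ)).eventually_ge_atTop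
        (M ^ 2 * (6 * C) / (κ / 128) ^ 2)
      filter_upwards [this] with d hd
      rw [div_le_iff₀ (by positivity)] at hd
      linarith
    filter_upwards [ha, hb] with d hda hdb
    have hd0 : (0 : ℝ) ≤ d := Nat.cast_nonneg d
    have hc1 : M * Real.sqrt (6 * C * d) ≤ κ / 128 * d := by
      have e1 : M * Real.sqrt (6 * C * d) = Real.sqrt (M ^ 2 * (6 * C) * d) := by
        rw [show (M : ℝ) ^ 2 * (6 * C) * d = (M : ℝ) ^ 2 * (6 * C * d) by ring,
          Real.sqrt_mul (sq_nonneg _), Real.sqrt_sq hM0.le]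
      rw [e1, ← Real.sqrt_sq (show 0 ≤ κ / 128 * d by positivity)]
      apply Real.sqrt_le_sqrt
      calc M ^ 2 * (6 * C) * d ≤ (κ / 128) ^ 2 * d * d := mul_le_mul_of_nonneg_right hdb hd0
        _ = _ := by ring
    calc M * (C + 2 + Real.sqrt (6 * C * d)) = M * (C + 2) + M * Real.sqrt (6 * C * d) := by ring
      _ ≤ κ / 128 * d + κ / 128 * d := add_le_add hda hc1
      _ = _ := by ring
  filter_upwards [nums hcap hc0 hc one_pos, h3] with d hn h3 η hη hη1
  obtain ⟨hd4, hp, hk1, -, -, -, hpk, -⟩ := hn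
  have hd0 : (0 : ℝ) < d := by exact_mod_cast (by omega : 0 < d)
  have hne : NeZero d := ⟨by omega⟩
  have hk0 : (0 : ℝ) < (⌊AA * c * ord d⌋₊ : ℝ) := by exact_mod_cast hk1
  have hpkC : pc d * (⌊AA * c * ord d⌋₊ : ℝ) ≤ C * d := by
    have := (abs_le.1 hpk).2
    rw [hC]
    linarith
  exact err_alg hp (pc_le_one (by omega)) hk0 hd0 hC1 hpkC hκ hM1 hM8 hη hη1 hε30 h1 h2 h3

end Pool.Agent.Helper63.SM
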