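import Pool.Agent.Helper63.SM.Defs
import Pool.Agent.Helper63.RKS.Asm2

/-!
The sizes: `k = ⌊A c F(d)⌋` and the cap measure `p`.
-/

set_option autoImplicit false

open MeasureTheory Set Filter Topology

namespace Pool.Agent.Helper63.SM

open Pool.Agent.Helper63.RKS Pool.Agent.Helper49.EJ Pool.Agent.Helper47.KP

lemma pr_eq_kp (d j : ℕ) : pr (sig d) (Rc (d := d)) j = kp d j := by
  unfold pr kp
  rw [Kiss_eq]

lemma ord_large : Tendsto ord atTop atTop := by
  have h1 : Tendsto (fun d : ℕ => (d : ℝ) ^ (3 / 2 : ℝ)) atTop atTop :=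
    (tendsto_rpow_atTop (by norm_num)).comp tendsto_natCast_atTop_atTop
  refine tendsto_atTop_mono' _ ?_ h1
  filter_upwards with d
  unfold ord
  have h2 : (1 : ℝ) ≤ 2 / Real.sqrt 3 := by
    rw [one_le_div (Real.sqrt_pos.2 (by norm_num)), Real.sqrt_le_left (by norm_num)]
    norm_num
  exact le_mul_of_one_le_right (by positivity) (one_le_pow₀ h2)

lemma pk_sharp' (hcap : CapAsymp) {c : ℝ} (hc : c < gst) {ε : ℝ}
    (hε : 0 < ε) : ∀ᶠ d : ℕ in atTop, ∀ k : ℕ, (k : ℝ) ≤ c * (AA * ord d) → 0 < kp d k ∧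
      |Real.log (kp d k) + Real.log 2 / (2 * AA) * (k ^ 2 * d / ord d)| ≤ ε * (d * ord d) := by
  refine pk_sharp hcap ?_ hε
  unfold sT
  linarith

/-- **The sizes.** -/
theorem nums (hcap : CapAsymp) {c : ℝ} (hc0 : 0 < c) (hc : c < gst) {ε : ℝ} (hε : 0 < ε) :
    ∀ᶠ d : ℕ in atTop, 4 ≤ d ∧ 0 < pc d ∧ 1 ≤ ⌊AA * c * ord d⌋₊ ∧
      AA * c / 2 * ord d ≤ (⌊AA * c * ord d⌋₊ : ℝ) ∧ (⌊AA * c * ord d⌋₊ : ℝ) ≤ AA * c * ord d ∧
      AA * c * ord d < (⌊AA * c * ord d⌋₊ : ℝ) + 1 ∧
      |pc d * (⌊AA * c * ord d⌋₊ : ℝ) - c * Real.log 2 * d| ≤ ε * d ∧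
      ∀ j : ℕ, j ≤ ⌊AA * c * ord d⌋₊ → 0 < pr (sig d) (Rc (d := d)) j ∧
        |Real.log (pr (sig d) (Rc (d := d)) j) + pc d / 2 * (j : ℝ) ^ 2| ≤
          ε * (d * (⌊AA * c * ord d⌋₊ : ℝ)) := by
  have hl2 : 0 < Real.log 2 := Real.log_pos (by norm_num)
  have hA := AA_pos
  have hAc : 0 < AA * c := mul_pos hA hc0
  -- `pc d * ord d / d → log 2 / AA`
  have hT : Tendsto (fun d : ℕ => pc d * ord d / d) atTop (𝓝 (Real.log 2 / AA)) := by
    have h1 := (RR_tendsto hcap).inv₀ hA.ne'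
    have h2 := h1.mul_const (Real.log 2)
    rw [show AA⁻¹ * Real.log 2 = Real.log 2 / AA by rw [div_eq_inv_mul]] at h2
    refine h2.congr' ?_
    filter_upwards [eventually_ge_atTop 4] with d hd
    have hp := pc_pos hd
    have hd0 : (0 : ℝ) < d := by exact_mod_cast (by omega : 0 < d)
    have ho := ord_pos (by omega : 1 ≤ d)
    unfold RR
    field_simp
  set e1 : ℝ := ε / (2 * (1 + AA * c)) with he1
  have he10 : 0 < e1 := by positivity
  have hT2 : ∀ᶠ d : ℕ in atTop, |pc d * ord d / d - Real.log 2 / AA| ≤ e1 := by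
    have := hT.sub_const (Real.log 2 / AA)
    rw [sub_self] at this
    have h3 := this.abs
    rw [abs_zero] at h3
    exact (h3.eventually_lt_const he10).mono fun d h => h.le
  have hord : ∀ᶠ d : ℕ in atTop, 2 / (AA * c) ≤ ord d := ord_large.eventually_ge_atTop _
  have hdl : ∀ᶠ d : ℕ in atTop, 2 / ε ≤ (d : ℝ) := tendsto_natCast_atTop_atTop.eventually_ge_atTop _
  filter_upwards [hT2, hord, hdl, eventually_ge_atTop 4,
    pk_sharp' hcap hc (show 0 < ε * (AA * c) / 4 by positivity)] with d h1 h2 h3 h4 h5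
  have hp := pc_pos h4
  have hp1 : pc d ≤ 1 := by
    have : NeZero d := ⟨by omega⟩
    exact pc_le_one (by omega)
  have hd0 : (0 : ℝ) < d := by exact_mod_cast (by omega : 0 < d)
  have ho := ord_pos (by omega : 1 ≤ d)
  set y := AA * c * ord d with hy
  have hy2 : 2 ≤ y := by
    rw [div_le_iff₀ hAc] at h2
    rw [hy]; linarith
  set k := ⌊y⌋₊ with hk
  have hk1 : (k : ℝ) ≤ y := Nat.floor_le (by linarith)
  have hk2 : y < k + 1 := Nat.lt_floor_add_one y
  have hkh : AA * c / 2 * ord d ≤ k := by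
    have : AA * c / 2 * ord d = y / 2 := by rw [hy]; ring
    rw [this]; linarith
  have hkone : 1 ≤ k := by
    have : (0 : ℝ) < k := by linarith
    exact_mod_cast Nat.cast_pos.1 this
  have hk0 : (0 : ℝ) < k := by linarith
  -- `|pc d * ord d - log 2 / AA * d| ≤ e1 * d`
  have h6 : |pc d * ord d - Real.log 2 / AA * d| ≤ e1 * d := by
    have e : pc d * ord d - Real.log 2 / AA * d = (pc d * ord d / d - Real.log 2 / AA) * d := by
      field_simp
    rw [e, abs_mul, abs_of_pos hd0]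
    exact mul_le_mul_of_nonneg_right h1 hd0.le
  refine ⟨h4, hp, hkone, hkh, hk1, hk2, ?_, ?_⟩
  · have h7 : |pc d * y - c * Real.log 2 * d| ≤ ε / 2 * d := by
      have e : pc d * y - c * Real.log 2 * d = AA * c * (pc d * ord d - Real.log 2 / AA * d) := by
        rw [hy]; field_simp
      rw [e, abs_mul, abs_of_pos hAc]
      calc AA * c * |pc d * ord d - Real.log 2 / AA * d| ≤ AA * c * (e1 * d) :=
            mul_le_mul_of_nonneg_left h6 hAc.le
        _ ≤ ε / 2 * d := by
            rw [← mul_assoc]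
            apply mul_le_mul_of_nonneg_right _ hd0.le
            rw [he1, ← mul_div_assoc, div_le_iff₀ (by positivity)]
            have : 0 ≤ ε := hε.le
            nlinarith
    have h8 : |pc d * k - pc d * y| ≤ ε / 2 * d := by
      rw [← mul_sub, abs_mul, abs_of_pos hp]
      have h9 : |(k : ℝ) - y| ≤ 1 := by rw [abs_le]; constructor <;> linarith
      have h10 : 1 ≤ ε / 2 * d := by
        rw [div_le_iff₀ hε] at h3
        linarith
      calc pc d * |(k : ℝ) - y| ≤ 1 * 1 := mul_le_mul hp1 h9 (abs_nonneg _) zero_le_one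
        _ ≤ _ := by linarith
    calc |pc d * k - c * Real.log 2 * d| =
        |(pc d * k - pc d * y) + (pc d * y - c * Real.log 2 * d)| := by congr 1; ring
      _ ≤ _ := abs_add_le _ _
      _ ≤ ε / 2 * d + ε / 2 * d := add_le_add h8 h7
      _ = ε * d := by ring
  · intro j hj
    have hjk : (j : ℝ) ≤ k := by exact_mod_cast hj
    obtain ⟨h7, h8⟩ := h5 j (by rw [show c * (AA * ord d) = y by rw [hy]; ring]; linarith)
    rw [pr_eq_kp]
    refine ⟨h7, ?_⟩
    have h9 : ε * (AA * c) / 4 * (d * ord d) ≤ ε / 2 * (d * k) := by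
      have e : ε * (AA * c) / 4 * (d * ord d) = ε / 2 * (d * (AA * c / 2 * ord d)) := by ring
      rw [e]
      gcongr
    have h10 : |pc d / 2 * (j : ℝ) ^ 2 - Real.log 2 / (2 * AA) * (j ^ 2 * d / ord d)| ≤
        ε / 2 * (d * k) := by
      have e : pc d / 2 * (j : ℝ) ^ 2 - Real.log 2 / (2 * AA) * (j ^ 2 * d / ord d) =
          (j : ℝ) ^ 2 / (2 * ord d) * (pc d * ord d - Real.log 2 / AA * d) := by
        field_simp
      rw [e, abs_mul, abs_of_nonneg (by positivity)]
      have hj2 : (j : ℝ) ^ 2 ≤ k * y := by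
        rw [sq]
        exact mul_le_mul hjk (hjk.trans hk1) (Nat.cast_nonneg j) hk0.le
      calc (j : ℝ) ^ 2 / (2 * ord d) * |pc d * ord d - Real.log 2 / AA * d| ≤
            (k * y) / (2 * ord d) * (e1 * d) := by gcongr
        _ = AA * c / 2 * e1 * (d * k) := by rw [hy]; field_simp
        _ ≤ ε / 2 * (d * k) := by
            apply mul_le_mul_of_nonneg_right _ (by positivity)
            have h12 : AA * c * e1 ≤ ε := by
              rw [he1, ← mul_div_assoc, div_le_iff₀ (by positivity)]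
              nlinarith
            linarith
    calc |Real.log (kp d j) + pc d / 2 * (j : ℝ) ^ 2| =
        |(Real.log (kp d j) + Real.log 2 / (2 * AA) * (j ^ 2 * d / ord d)) +
          (pc d / 2 * (j : ℝ) ^ 2 - Real.log 2 / (2 * AA) * (j ^ 2 * d / ord d))| := by
          congr 1; ring
      _ ≤ _ := abs_add_le _ _
      _ ≤ ε * (AA * c) / 4 * (d * ord d) + ε / 2 * (d * k) := add_le_add h8 h10
      _ ≤ ε / 2 * (d * k) + ε / 2 * (d * k) := by linarith
      _ = _ := by ring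

end Pool.Agent.Helper63.SM
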