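import Pool.Agent.Helper63.SM.Defs
import Pool.Agent.Helper63.RKS.Asm3

/-!
The upper bound for the largest kissing configuration among random candidates, up to probability
`exp (- δ F(d))`.
-/

set_option autoImplicit false

open MeasureTheory Set Filter Topology

namespace Pool.Agent.Helper63.SM

open Pool.Agent.Helper63.RKS Pool.Agent.Helper49.EJ Pool.Agent.Helper47.KP

/-- **The first moment bound for the largest kissing subset.** -/
theorem largest_upper' {s₁ s₂ : ℝ} (h1 : Real.logb 2 (2 / Real.sqrt 3) < s₁)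
    (h2 : s₂ < Real.logb 2 (2 / Real.sqrt 3) + gst) {ε : ℝ} (hε : 0 < ε) (hε1 : ε < 1) :
    ∀ᶠ d : ℕ in atTop, 4 ≤ d ∧ ∀ n : ℕ, (2 : ℝ) ^ (s₁ * d) ≤ n → (n : ℝ) ≤ 2 ^ (s₂ * d) →
      (Measure.pi fun _ : Fin n => sig d).real
        {x | ∃ I : Finset (Fin n), Pool.Agent.Helper84.RK.Kis x I ∧
          (1 + ε) * top (gst * Real.log 2 * d) (Real.log (n * pc d)) / pc d ≤ I.card} ≤
        Real.exp (-((1 + ε) * top (gst * Real.log 2 * d) (Real.log (n * pc d)) / pc d)) := by
  set s0 := Real.logb 2 (2 / Real.sqrt 3) with hs0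
  have hl2 : 0 < Real.log 2 := Real.log_pos (by norm_num)
  have hgst := gst_pos
  -- the distance of the level from `l`
  obtain ⟨c, hc, hcev⟩ := log_np h1
  set r : ℝ := (gst - (s₂ - s0)) / 2 with hr
  have hr0 : 0 < r := by rw [hr]; linarith
  set c2 : ℝ := min (c * Real.log 2) (r * Real.log 2) with hc2
  have hc20 : 0 < c2 := by rw [hc2]; exact lt_min (by positivity) (by positivity)
  -- parameters
  set κ : ℝ := min (1 / 4) (ε * c2 / (8 * (gst * Real.log 2))) with hκ
  have hκ0 : 0 < κ := by rw [hκ]; positivity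
  have hκ1 : κ ≤ 1 / 4 := min_le_left _ _
  have hκ2 : κ * (gst * Real.log 2) ≤ ε * c2 / 8 := by
    have : κ ≤ ε * c2 / (8 * (gst * Real.log 2)) := min_le_right _ _
    calc κ * (gst * Real.log 2) ≤ ε * c2 / (8 * (gst * Real.log 2)) * (gst * Real.log 2) :=
          mul_le_mul_of_nonneg_right this (by positivity)
      _ = ε * c2 / 8 := by field_simp
  set g : ℝ := (1 - κ) * gst with hg
  have hgl : g < gst := by rw [hg]; nlinarith
  obtain ⟨K, hK1, hKp⟩ := kp_upper (g := g) (κ := κ) hgl hκ0 (by linarith)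
  have hev : ∀ᶠ d : ℕ in atTop, max 1 (8 * (3 + K) / (ε * c2)) + 1 / c2 ≤ d := by
    exact (tendsto_natCast_atTop_atTop (R := ℝ)).eventually_ge_atTop _
  filter_upwards [hKp, kp_rec (g := g) (κ := κ) hgl hκ0 (by linarith), hcev, hev,
    log_lp_le (η := r) hr0 s₂] with d hk hrec hnp hbig hlp
  obtain ⟨hd4, hrec⟩ := hrec
  refine ⟨hd4, fun n hn1 hn2 => ?_⟩
  have : NeZero d := ⟨by omega⟩
  have hp := pc_pos hd4
  have hp1 : pc d ≤ 1 := pc_le_one (by omega)
  have hn0 : (0 : ℝ) < n := lt_of_lt_of_le (by positivity) hn1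
  have hnn : 0 < n := by exact_mod_cast hn0
  obtain ⟨-, hlog⟩ := hnp n hn1
  have hlup := hlp n hn0 hn2
  rw [← hs0] at hlup
  set p := pc d with hpd
  set l := Real.log (n * p) with hl
  set G : ℝ := gst * Real.log 2 * d with hG
  have hd0 : (0 : ℝ) < d := by exact_mod_cast (by omega : 0 < d)
  have hq2 : 0 < 1 / c2 := by positivity
  have hd1 : 8 * (3 + K) / (ε * c2) ≤ d := by
    have := le_max_right 1 (8 * (3 + K) / (ε * c2))
    linarith
  have hd3 : 1 / c2 ≤ d := by
    have := (le_max_left 1 (8 * (3 + K) / (ε * c2)))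
    linarith
  have hc2d : 1 ≤ c2 * d := by
    rw [div_le_iff₀ hc20] at hd3
    linarith
  have hlc : c2 * d ≤ l := by
    refine le_trans ?_ hlog
    exact mul_le_mul_of_nonneg_right (min_le_left _ _) hd0.le
  have hGl : c2 * d ≤ G - l := by
    have h3 : (r * Real.log 2) * d ≤ G - l := by
      have : G - (s₂ - s0 + r) * Real.log 2 * d = (r * Real.log 2) * d := by
        rw [hG, hr]; ring
      linarith
    exact (mul_le_mul_of_nonneg_right (min_le_right _ _) hd0.le).trans h3
  have hl0 : 0 < l := by linarith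
  have hlG : l < G := by linarith
  set y0 : ℝ := lev G l with hy0
  have hy0l : c2 * d ≤ y0 - l := by
    rw [hy0]; unfold lev
    have : l + c2 * d ≤ min (2 * l) G := le_min (by linarith) (by linarith)
    linarith
  have hy0G : y0 ≤ G := min_le_right _ _
  have hy02 : y0 ≤ 2 * l := min_le_left _ _
  have hy00 : 0 < y0 := by linarith
  set T := top G l with hT
  have hTy : y0 ≤ T := lev_le_top hl0 hlG
  have hTeq : T * (y0 - l) = y0 ^ 2 / 2 := by
    have h3 : 0 < y0 - l := by linarith
    rw [hT]; unfold top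
    rw [← hy0]
    field_simp
  set y : ℝ := (1 - κ) * y0 with hy
  have hκ' : 0 < 1 - κ := by linarith
  have hy_pos : 0 < y := mul_pos hκ' hy00
  set k : ℕ := ⌈(1 + ε) * T / p⌉₊ with hkdef
  have hkge : (1 + ε) * T / p ≤ k := Nat.le_ceil _
  have hxk : (1 + ε) * T ≤ p * k := by
    rw [div_le_iff₀ hp] at hkge
    linarith
  have hT0 : 0 < T := by linarith
  have hTx : T ≤ p * k := by nlinarith
  have hk0 : (0 : ℝ) < k := by
    have : 0 < p * k := by linarith
    exact (mul_pos_iff_of_pos_left hp).1 this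
  have hkn : 0 < k := by exact_mod_cast hk0
  have hyk : y ≤ p * k := by
    have : y ≤ y0 := by rw [hy]; nlinarith
    linarith
  have hpk1 : 1 ≤ p * k := by linarith
  set q : ℕ := ⌊y / p⌋₊ with hq
  have hqy : p * q ≤ y := by
    have : (q : ℝ) ≤ y / p := Nat.floor_le (by positivity)
    rw [le_div_iff₀ hp] at this
    linarith
  have hyG : y ≤ g * Real.log 2 * d := by
    have : g * Real.log 2 * d = (1 - κ) * G := by rw [hg, hG]; ring
    rw [this, hy]
    exact mul_le_mul_of_nonneg_left hy0G hκ'.le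
  have hqk : q ≤ k := by
    have h3 : (q : ℝ) ≤ k := by
      have : p * q ≤ p * k := hqy.trans hyk
      exact le_of_mul_le_mul_left this hp
    exact_mod_cast h3
  have hFM := first_moment (P := kp d) (kp_nonneg d) (p := p) (κ := κ) (K := K) (y := y)
    (n := n) (k := k) (q := q) hp hp1 hκ0 (by linarith) (by linarith) hnn hkn hq hy_pos.le hyk
    hpk1 (hk q (hqy.trans hyG)) (hrec k q hqk (by
      refine le_trans ?_ (hqy.trans hyG)
      have : (1 - κ) * p ≤ p := mul_le_of_le_one_left hp.le (by linarith)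
      exact mul_le_mul_of_nonneg_right this (Nat.cast_nonneg q)))
  have hsub : {x : Fin n → Sph d | ∃ I : Finset (Fin n), Pool.Agent.Helper84.RK.Kis x I ∧
      (1 + ε) * T / p ≤ I.card} ⊆ {x | ∃ I, Pool.Agent.Helper49.EJ.Kis x I ∧ k ≤ I.card} := by
    rintro x ⟨I, hI, h⟩
    exact ⟨I, hI, Nat.ceil_le.2 h⟩
  refine (measureReal_mono hsub (measure_ne_top _ _)).trans (union_bound.trans ?_)
  change (n.choose k : ℝ) * kp d k ≤ _
  refine hFM.trans ?_
  apply Real.exp_le_exp.2
  rw [← hl]
  set x : ℝ := p * k with hx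
  have e1 : (k : ℝ) = x / p := by rw [hx]; field_simp
  rw [e1]
  have hend := num_end (x := x) (l := l) (y0 := y0) (T := T) (κ := κ) (ε := ε) (c2 := c2)
    (D := d) (K := K) (p := p) (G := G) hp hκ0 hκ1 hε hε1 hc20 hd0 (by linarith) hxk hT0
    hpk1 hy00 hTy hTeq hy0l hy0G (by
      rw [hG, ← mul_assoc]
      exact mul_le_mul_of_nonneg_right hκ2 hd0.le)
    (by
      rw [div_le_iff₀ (by positivity)] at hd1
      linarith)
  refine hend.trans ?_
  have : (1 + ε) * T / p ≤ x / p := div_le_div_of_nonneg_right hxk hp.le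
  linarith


/-- **The upper bound for the largest kissing subset of random candidates.** -/
theorem upper_sharp (hcap : CapAsymp) {s₁ s₂ : ℝ} (h1 : Real.logb 2 (2 / Real.sqrt 3) < s₁)
    (h2 : s₂ < Real.logb 2 (2 / Real.sqrt 3) + gst) {ε : ℝ} (hε : 0 < ε) :
    ∃ δ : ℝ, 0 < δ ∧ ∀ᶠ d : ℕ in atTop, ∀ s : ℝ, s₁ ≤ s → s ≤ s₂ →
      (Measure.pi fun _ : Fin ⌊(2 : ℝ) ^ (s * d)⌋₊ => sig d).real
        {x | (AA * top gst (s - Real.logb 2 (2 / Real.sqrt 3)) + ε) * ord d < maxBalls x} ≤
        Real.exp (-(δ * ord d)) := by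
  rcases lt_or_ge s₂ s₁ with h12 | h12
  · refine ⟨1, one_pos, ?_⟩
    filter_upwards with d s hs1 hs2
    exfalso; linarith
  set s0 := Real.logb 2 (2 / Real.sqrt 3) with hs0
  have hs0p : 0 < s0 := W_pos
  have hl2 : 0 < Real.log 2 := Real.log_pos (by norm_num)
  have hA := AA_pos
  have hA1 := AA_le_one
  have hgst := gst_pos
  -- the upper constant is bounded
  set M : ℝ := top gst (s₂ - s0) with hM
  have hM0 : 0 ≤ M := top_nonneg (by linarith) (by linarith)
  -- parameters
  set e : ℝ := min (ε / (16 * (M + 1))) (min ((s₁ - s0) / 8) (min (AA / 2) (1 / 8))) with he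
  have he0 : 0 < e := by
    rw [he]
    refine lt_min (by positivity) (lt_min (by linarith) (lt_min (by linarith) (by norm_num)))
  have heM : e * (M + 1) ≤ ε / 16 := by
    have : e ≤ ε / (16 * (M + 1)) := min_le_left _ _
    calc e * (M + 1) ≤ ε / (16 * (M + 1)) * (M + 1) :=
          mul_le_mul_of_nonneg_right this (by linarith)
      _ = ε / 16 := by field_simp
  have heε : e ≤ ε / 16 := (le_mul_of_one_le_right he0.le (by linarith)).trans heM
  have hes : e ≤ (s₁ - s0) / 8 := (min_le_right _ _).trans (min_le_left _ _)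
  have heA : e ≤ AA / 2 := (min_le_right _ _).trans ((min_le_right _ _).trans (min_le_left _ _))
  have he8 : e ≤ 1 / 8 := (min_le_right _ _).trans ((min_le_right _ _).trans (min_le_right _ _))
  set δ : ℝ := (s₁ - s0) / 2 * (AA / 2) with hδ
  have hδ0 : 0 < δ := by
    rw [hδ]
    have : 0 < s₁ - s0 := by linarith
    positivity
  refine ⟨δ, hδ0, ?_⟩
  filter_upwards [largest_upper' (s₁ := s₁ - e) (s₂ := s₂) (by linarith) h2 he0 (by linarith),
    RR_close hcap he0, log_close he0, floor_close he0, eventually_ge_atTop 10]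
    with d hup hR hlog hfl hd10 s hs1 hs2
  obtain ⟨hd4, hup⟩ := hup
  obtain ⟨hR1, hR2⟩ := hR
  have : NeZero d := ⟨by omega⟩
  have hp := pc_pos hd4
  have hd0 : (10 : ℝ) ≤ d := by exact_mod_cast hd10
  set o := ord d with ho
  have ho0 : 0 < o := ord_pos (by omega)
  have hR0 : 0 ≤ RR d := by unfold RR; positivity
  set D : ℝ := Real.log 2 * d with hD
  have hD0 : 0 < D := mul_pos hl2 (by linarith)
  have hRp : D / pc d = RR d := by
    rw [hD]; unfold RR; ring
  set n : ℕ := ⌊(2 : ℝ) ^ (s * d)⌋₊ with hn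
  obtain ⟨hn1, hn2⟩ := hfl s (by linarith)
  rw [← hn] at hn1 hn2
  set t : ℝ := s - s0 with ht
  have ht0 : 0 < t := by rw [ht]; linarith
  have htg : t < gst := by rw [ht]; linarith
  have hn0 : (0 : ℝ) < n := lt_of_lt_of_le (by positivity) hn1
  have hr1 : (2 : ℝ) ^ ((s₁ - e) * d) ≤ n := by
    refine le_trans ?_ hn1
    apply Real.rpow_le_rpow_of_exponent_le (by norm_num)
    apply mul_le_mul_of_nonneg_right _ (by linarith)
    linarith
  have hr2 : (n : ℝ) ≤ 2 ^ (s₂ * d) := by
    refine hn2.trans ?_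
    apply Real.rpow_le_rpow_of_exponent_le (by norm_num)
    exact mul_le_mul_of_nonneg_right hs2 (by linarith)
  have hL1 : (t - 2 * e) * D ≤ Real.log (n * pc d) := by
    have h3 := (hlog (s - e)).1
    have h4 : Real.log (2 ^ ((s - e) * d) * pc d) ≤ Real.log (n * pc d) := by
      apply Real.log_le_log (by positivity)
      exact mul_le_mul_of_nonneg_right hn1 hp.le
    calc (t - 2 * e) * D = (s - e - s0 - e) * D := by rw [ht]; ring
      _ ≤ _ := h3.trans h4
  have hL2 : Real.log (n * pc d) ≤ t * D := by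
    have h3 := (hlog s).2
    refine le_trans ?_ h3
    apply Real.log_le_log (by positivity)
    exact mul_le_mul_of_nonneg_right hn2 hp.le
  have hL0 : 0 < Real.log (n * pc d) := by
    have : 0 < (t - 2 * e) * D := mul_pos (by rw [ht]; linarith) hD0
    linarith
  set l := Real.log (n * pc d) with hl
  have hG : gst * Real.log 2 * d = D * gst := by rw [hD]; ring
  have hlG : l < D * gst := lt_of_le_of_lt hL2 (by rw [mul_comm t D]; exact mul_lt_mul_of_pos_left htg hD0)
  have h5 : top (gst * Real.log 2 * d) l ≤ D * top gst t := by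
    rw [← top_hom hD0, hG]
    apply top_mono hL0
    · linarith
    · exact mul_lt_mul_of_pos_left htg hD0
  have hT0 : 0 ≤ top gst t := top_nonneg ht0 htg
  have hTM : top gst t ≤ M := top_mono ht0 (by rw [ht]; linarith) (by linarith)
  refine le_trans (le_trans (measureReal_mono ?_ (measure_ne_top _ _)) (hup n hr1 hr2)) ?_
  · intro x hx
    obtain ⟨I, hI, hI2⟩ := exists_maxBalls x
    refine ⟨I, hI, le_trans ?_ (show (AA * top gst t + ε) * o ≤ (I.card : ℝ) by
      rw [hI2]; exact le_of_lt hx)⟩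
    have h6 : (1 + e) * top (gst * Real.log 2 * d) l / pc d ≤ (1 + e) * top gst t * RR d := by
      calc (1 + e) * top (gst * Real.log 2 * d) l / pc d ≤ (1 + e) * (D * top gst t) / pc d := by
            apply div_le_div_of_nonneg_right _ hp.le
            exact mul_le_mul_of_nonneg_left h5 (by linarith)
        _ = _ := by rw [← hRp]; ring
    refine h6.trans ?_
    set T := top gst t with hT
    have h7 : (1 + e) * T * RR d ≤ (1 + e) * T * ((AA + e) * o) :=
      mul_le_mul_of_nonneg_left hR2 (by positivity)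
    refine h7.trans ?_
    have h8 : (1 + e) * T * (AA + e) ≤ AA * T + ε := by
      have h9 : e * T ≤ ε / 16 := by
        calc e * T ≤ e * (M + 1) := mul_le_mul_of_nonneg_left (by linarith) he0.le
          _ ≤ _ := heM
      have h10 : 0 ≤ e * T := by positivity
      have h11 : AA * (e * T) ≤ 1 * (e * T) := mul_le_mul_of_nonneg_right hA1 h10
      have h12 : e * (e * T) ≤ 1 * (e * T) := mul_le_mul_of_nonneg_right (by linarith) h10
      have e2 : (1 + e) * T * (AA + e) = AA * T + e * T + AA * (e * T) + e * (e * T) := by ring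
      linarith
    calc (1 + e) * T * ((AA + e) * o) = ((1 + e) * T * (AA + e)) * o := by ring
      _ ≤ _ := mul_le_mul_of_nonneg_right h8 ho0.le
  · apply Real.exp_le_exp.2
    apply neg_le_neg
    -- `top ≥ l ≥ (s₁ - s0) / 2 * D`
    have h9 : l ≤ top (gst * Real.log 2 * d) l := by
      rw [hG]
      refine le_trans ?_ (lev_le_top hL0 hlG)
      unfold lev
      exact le_min (by linarith) hlG.le
    have h10 : (s₁ - s0) / 2 * D ≤ l := by
      refine le_trans ?_ hL1
      apply mul_le_mul_of_nonneg_right _ hD0.le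
      rw [ht]; linarith
    have h11 : (s₁ - s0) / 2 * D ≤ (1 + e) * top (gst * Real.log 2 * d) l := by
      have h12 : 0 ≤ e * top (gst * Real.log 2 * d) l := mul_nonneg he0.le (by linarith)
      linarith
    calc δ * o = (s₁ - s0) / 2 * (AA / 2 * o) := by rw [hδ]; ring
      _ ≤ (s₁ - s0) / 2 * RR d := by
          apply mul_le_mul_of_nonneg_left _ (by linarith)
          refine le_trans ?_ hR1
          exact mul_le_mul_of_nonneg_right (by linarith) ho0.le
      _ = (s₁ - s0) / 2 * D / pc d := by rw [← hRp]; ring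
      _ ≤ _ := div_le_div_of_nonneg_right h11 hp.le

end Pool.Agent.Helper63.SM
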